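import Mathlib

/-!
# Integral group rings are stably finite (Kaplansky)
-/

set_option autoImplicit false

namespace Pool.Agent.W196.CCN

/-- the Hilbert space of the group -/
abbrev L (G : Type) : Type := lp (fun _ : G => ℝ) 2

theorem mem {G : Type} (σ : G ≃ G) (x : L G) : Memℓp (fun i => x (σ i)) (2 : ENNReal) := by
  refine memℓp_gen ?_
  have h := (lp.memℓp x).summable (by norm_num : 0 < (2 : ENNReal).toReal)
  exact h.comp_injective σ.injective

/-- permutation of the coordinates -/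
noncomputable def perm {G : Type} (σ : G ≃ G) : L G →ₗᵢ[ℝ] L G where
  toFun x := (⟨fun i => x (σ i), mem σ x⟩ : L G)
  map_add' x y := by ext i; rfl
  map_smul' z x := by ext i; rfl
  norm_map' x := by
    rw [lp.norm_eq_tsum_rpow (by norm_num), lp.norm_eq_tsum_rpow (by norm_num)]
    exact congrArg (· ^ (1 / (2 : ENNReal).toReal))
      (σ.tsum_eq (fun i => ‖x i‖ ^ (2 : ENNReal).toReal))

theorem perm_apply {G : Type} (σ : G ≃ G) (x : L G) (i : G) : (perm σ x) i = x (σ i) := rfl

/-- the left regular representation -/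
noncomputable def lam (G : Type) [Group G] : G →* (L G →L[ℝ] L G) where
  toFun g := (perm (Equiv.mulLeft g⁻¹)).toContinuousLinearMap
  map_one' := by
    ext x h
    show x (1⁻¹ * h) = x h
    rw [inv_one, one_mul]
  map_mul' a b := by
    ext x h
    show x ((a * b)⁻¹ * h) = x (b⁻¹ * (a⁻¹ * h))
    rw [mul_inv_rev, mul_assoc]

/-- the left regular representation of the group ring -/
noncomputable def rho (G : Type) [Group G] : MonoidAlgebra ℤ G →ₐ[ℤ] (L G →L[ℝ] L G) :=
  MonoidAlgebra.lift ℤ (L G →L[ℝ] L G) G (lam G)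

variable {G : Type} [Group G]

theorem rho_eq (a : MonoidAlgebra ℤ G) :
    rho G a = ∑ g ∈ a.coeff.support, (a.coeff g : ℝ) • lam G g := by
  unfold rho
  rw [MonoidAlgebra.lift_apply]
  refine Finset.sum_congr rfl fun g _ => ?_
  exact (Int.cast_smul_eq_zsmul ℝ _ _).symm

theorem rho_apply (a : MonoidAlgebra ℤ G) (x : L G) (h : G) :
    (rho G a x) h = ∑ g ∈ a.coeff.support, (a.coeff g : ℝ) * x (g⁻¹ * h) := by
  rw [rho_eq, _root_.sum_apply, lp.coeFn_sum, Finset.sum_apply]
  rfl

/-- right translations -/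
noncomputable def rt (g : G) : L G →ₗᵢ[ℝ] L G := perm (Equiv.mulRight g)

theorem rt_apply (g : G) (x : L G) (h : G) : (rt g x) h = x (h * g) := rfl

theorem rt_rho (g : G) (a : MonoidAlgebra ℤ G) (x : L G) :
    rt g (rho G a x) = rho G a (rt g x) := by
  ext h
  rw [rt_apply, rho_apply, rho_apply]
  refine Finset.sum_congr rfl fun k _ => ?_
  rw [rt_apply, mul_assoc]

theorem rt_inv (g : G) (x : L G) : rt g (rt g⁻¹ x) = x := by
  ext h
  rw [rt_apply, rt_apply, mul_inv_cancel_right]

open Classical in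
/-- the basis vectors -/
noncomputable def dl (h : G) : L G := lp.single 2 h (1 : ℝ)

open Classical in
theorem dl_apply (h k : G) : (dl h) k = if k = h then (1 : ℝ) else 0 := by
  unfold dl
  rw [lp.single_apply]
  by_cases hk : k = h
  · subst hk
    simp
  · simp [hk]

open Classical in
theorem inner_dl (h : G) (x : L G) : inner ℝ (dl h) x = x h := by
  have := lp.inner_single_left (𝕜 := ℝ) (G := fun _ : G => ℝ) h (1 : ℝ) x
  refine Eq.trans this ?_
  simp

theorem rt_dl (g h : G) : rt g (dl h) = dl (h * g⁻¹) := by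
  ext k
  rw [rt_apply, dl_apply, dl_apply]
  congr 1
  rw [eq_mul_inv_iff_mul_eq]

theorem lam_dl (g : G) : lam G g (dl 1) = dl g := by
  ext k
  show (dl 1) (g⁻¹ * k) = _
  rw [dl_apply, dl_apply]
  congr 1
  rw [inv_mul_eq_one]
  exact propext eq_comm

theorem rho_dl (a : MonoidAlgebra ℤ G) :
    rho G a (dl 1) = ∑ g ∈ a.coeff.support, (a.coeff g : ℝ) • dl g := by
  rw [rho_eq, _root_.sum_apply]
  refine Finset.sum_congr rfl fun g _ => ?_
  rw [_root_.smul_apply, lam_dl]

theorem rho_dl_apply (a : MonoidAlgebra ℤ G) (g : G) : (rho G a (dl 1)) g = (a.coeff g : ℝ) := by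
  classical
  rw [rho_apply]
  simp only [dl_apply]
  have : ∀ k ∈ a.coeff.support, (a.coeff k : ℝ) * (if k⁻¹ * g = 1 then (1 : ℝ) else 0) =
      if k = g then (a.coeff k : ℝ) else 0 := by
    intro k _
    by_cases hk : k = g
    · subst hk
      simp
    · have : ¬ (k⁻¹ * g = 1) := fun h => hk (inv_mul_eq_one.1 h)
      rw [if_neg this, if_neg hk, mul_zero]
  rw [Finset.sum_congr rfl this, Finset.sum_ite_eq']
  split_ifs with h
  · rfl
  · rw [Finsupp.notMem_support_iff.1 h, Int.cast_zero]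

/-- the Hilbert space -/
abbrev HH (n : ℕ) (G : Type) : Type := PiLp 2 (fun _ : Fin n => L G)

variable {n : ℕ}

/-- right translations -/
noncomputable def R (g : G) (v : HH n G) : HH n G := WithLp.toLp 2 fun i => rt g (v i)

theorem R_apply (g : G) (v : HH n G) (i : Fin n) : (R g v) i = rt g (v i) := rfl

theorem R_sub (g : G) (v w : HH n G) : R g (v - w) = R g v - R g w := by
  ext i : 1
  rw [R_apply, PiLp.sub_apply, PiLp.sub_apply, map_sub, R_apply, R_apply]

theorem R_zero (g : G) : R g (0 : HH n G) = 0 := by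
  ext i : 1
  rw [R_apply, PiLp.zero_apply, map_zero]

theorem R_inv (g : G) (v : HH n G) : R g (R g⁻¹ v) = v := by
  ext i : 1
  rw [R_apply, R_apply, rt_inv]

theorem inner_R (g : G) (v w : HH n G) : inner ℝ (R g v) (R g w) = inner ℝ v w := by
  rw [PiLp.inner_apply, PiLp.inner_apply]
  refine Finset.sum_congr rfl fun i _ => ?_
  rw [R_apply, R_apply, LinearIsometry.inner_map_map]

theorem inner_R' (g : G) (v w : HH n G) : inner ℝ (R g v) w = inner ℝ v (R g⁻¹ w) := by
  rw [← inner_R g v, R_inv]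

/-- the basis vectors -/
noncomputable def dd (i : Fin n) (g : G) : HH n G := WithLp.toLp 2 (Pi.single i (dl g))

theorem dd_apply (i : Fin n) (g : G) (j : Fin n) :
    (dd i g) j = (Pi.single i (dl g) : Fin n → L G) j := rfl

theorem R_dd (g : G) (i : Fin n) (h : G) : R g (dd i h) = dd i (h * g⁻¹) := by
  ext j : 1
  rw [R_apply, dd_apply, dd_apply]
  by_cases hj : j = i
  · subst hj
    rw [Pi.single_eq_same, Pi.single_eq_same, rt_dl]
  · rw [Pi.single_eq_of_ne hj, Pi.single_eq_of_ne hj, map_zero]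

theorem inner_dd (i : Fin n) (g : G) (v : HH n G) : inner ℝ (dd i g) v = (v i) g := by
  rw [PiLp.inner_apply, Finset.sum_eq_single i]
  · rw [dd_apply, Pi.single_eq_same, inner_dl]
  · intro j _ hj
    rw [dd_apply, Pi.single_eq_of_ne hj, inner_zero_left]
  · intro h
    exact absurd (Finset.mem_univ _) h

/-- the operator of a matrix -/
noncomputable def T (M : Matrix (Fin n) (Fin n) (MonoidAlgebra ℤ G)) : HH n G →L[ℝ] HH n G :=
  ((PiLp.continuousLinearEquiv 2 ℝ (fun _ : Fin n => L G)).symm :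
    (∀ _ : Fin n, L G) →L[ℝ] HH n G) ∘L
  (ContinuousLinearMap.pi fun i => ∑ j, (rho G (M i j)) ∘L
    (ContinuousLinearMap.proj j : (∀ _ : Fin n, L G) →L[ℝ] L G)) ∘L
  ((PiLp.continuousLinearEquiv 2 ℝ (fun _ : Fin n => L G)) : HH n G →L[ℝ] (∀ _ : Fin n, L G))

theorem T_apply (M : Matrix (Fin n) (Fin n) (MonoidAlgebra ℤ G)) (v : HH n G) (i : Fin n) :
    (T M v) i = ∑ j, rho G (M i j) (v j) := by
  show (∑ j, (rho G (M i j)) ∘L
    (ContinuousLinearMap.proj j : (∀ _ : Fin n, L G) →L[ℝ] L G)) (WithLp.ofLp v) = _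
  rw [_root_.sum_apply]
  rfl

theorem T_mul (M N : Matrix (Fin n) (Fin n) (MonoidAlgebra ℤ G)) (v : HH n G) :
    T M (T N v) = T (M * N) v := by
  ext i : 1
  rw [T_apply, T_apply]
  simp only [T_apply, map_sum]
  rw [Finset.sum_comm]
  refine Finset.sum_congr rfl fun k _ => ?_
  rw [Matrix.mul_apply, map_sum, _root_.sum_apply]
  refine Finset.sum_congr rfl fun j _ => ?_
  rw [map_mul]
  rfl

theorem T_R (M : Matrix (Fin n) (Fin n) (MonoidAlgebra ℤ G)) (g : G) (v : HH n G) :
    T M (R g v) = R g (T M v) := by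
  ext i : 1
  rw [T_apply, R_apply, T_apply, map_sum]
  refine Finset.sum_congr rfl fun j _ => ?_
  rw [R_apply, rt_rho]

theorem T_dd (M : Matrix (Fin n) (Fin n) (MonoidAlgebra ℤ G)) (i : Fin n) (j : Fin n) :
    (T M (dd i 1)) j = rho G (M j i) (dl 1) := by
  rw [T_apply, Finset.sum_eq_single i]
  · rw [dd_apply, Pi.single_eq_same]
  · intro k _ hk
    rw [dd_apply, Pi.single_eq_of_ne hk, map_zero]
  · intro h
    exact absurd (Finset.mem_univ _) h

theorem T_dd' (M : Matrix (Fin n) (Fin n) (MonoidAlgebra ℤ G)) (i : Fin n) :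
    T M (dd i 1) = ∑ j, ∑ g ∈ (M j i).coeff.support, ((M j i).coeff g : ℝ) • dd j g := by
  ext k : 1
  rw [T_dd, rho_dl, WithLp.ofLp_sum, Finset.sum_apply, Finset.sum_eq_single k]
  · rw [WithLp.ofLp_sum, Finset.sum_apply]
    refine Finset.sum_congr rfl fun g _ => ?_
    rw [PiLp.smul_apply, dd_apply, Pi.single_eq_same]
  · intro j _ hj
    rw [WithLp.ofLp_sum, Finset.sum_apply]
    refine Finset.sum_eq_zero fun g _ => ?_
    rw [PiLp.smul_apply, dd_apply, Pi.single_eq_of_ne hj.symm, smul_zero]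
  · intro h
    exact absurd (Finset.mem_univ _) h

theorem idem (E : Matrix (Fin n) (Fin n) (MonoidAlgebra ℤ G)) (hE : E * E = E)
    (ht : ∑ i, (E i i).coeff 1 = 0) : E = 0 := by
  set K : Submodule ℝ (HH n G) :=
    LinearMap.ker ((ContinuousLinearMap.id ℝ (HH n G) - T E : HH n G →L[ℝ] HH n G) :
      HH n G →ₗ[ℝ] HH n G) with hKdef
  have hK : ∀ v, v ∈ K ↔ T E v = v := by
    intro v
    rw [hKdef, LinearMap.mem_ker]
    show v - T E v = 0 ↔ _
    rw [sub_eq_zero, eq_comm]
  have : CompleteSpace K :=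
    (ContinuousLinearMap.isClosed_ker (ContinuousLinearMap.id ℝ (HH n G) - T E)).completeSpace_coe
  set P := K.starProjection with hP
  have hPmem : ∀ v, P v ∈ K := fun v => K.starProjection_apply_mem v
  have hPT : ∀ v, P (T E v) = T E v := fun v =>
    Submodule.starProjection_eq_self_iff.2 ((hK _).2 (by rw [T_mul, hE]))
  have hTP : ∀ v, T E (P v) = P v := fun v => (hK _).1 (hPmem v)
  have hRK : ∀ g v, v ∈ K → R g v ∈ K := fun g v hv => by
    rw [hK] at hv ⊢
    rw [T_R, hv]
  have hPR : ∀ g v, P (R g v) = R g (P v) := by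
    intro g v
    refine Submodule.eq_starProjection_of_mem_of_inner_eq_zero (hRK g _ (hPmem v)) ?_
    intro w hw
    rw [← R_sub, inner_R']
    exact Submodule.starProjection_inner_eq_zero v _ (hRK _ _ hw)
  have hdd : ∀ (i : Fin n) (g : G), dd i g = R g⁻¹ (dd i 1) := fun i g => by
    rw [R_dd, inv_inv, one_mul]
  have t1 : ∑ i, ((T E (dd i 1)) i) 1 = 0 := by
    have h2 : ∀ i : Fin n, ((T E (dd i 1)) i) 1 = ((E i i).coeff 1 : ℝ) := fun i => by
      rw [T_dd, rho_dl_apply]
    simp only [h2]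
    rw [← Int.cast_sum, ht, Int.cast_zero]
  have t2 : ∑ i, ((T E (dd i 1)) i) 1 =
      ∑ i, ∑ j, ∑ g ∈ (E j i).coeff.support, ((E j i).coeff g : ℝ) * ((P (dd j g)) i) 1 := by
    refine Finset.sum_congr rfl fun i _ => ?_
    rw [← hPT (dd i 1), T_dd']
    simp only [map_sum, map_smul, WithLp.ofLp_sum, Finset.sum_apply, lp.coeFn_sum]
    rfl
  have t3 : ∑ i, ((P (dd i 1)) i) 1 =
      ∑ i, ∑ j, ∑ g ∈ (E i j).coeff.support, ((E i j).coeff g : ℝ) * ((P (dd i g)) j) 1 := by
    refine Finset.sum_congr rfl fun i _ => ?_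
    rw [← hTP (dd i 1), T_apply, lp.coeFn_sum, Finset.sum_apply]
    refine Finset.sum_congr rfl fun j _ => ?_
    rw [rho_apply]
    refine Finset.sum_congr rfl fun g _ => ?_
    rw [hdd i g, hPR, R_apply, rt_apply, mul_one, one_mul]
  have t4 : ∑ i, ((P (dd i 1)) i) 1 = 0 := by
    rw [t3, ← t1, t2, Finset.sum_comm]
  have t5 : ∀ i : Fin n, ((P (dd i 1)) i) 1 = ‖P (dd i 1)‖ ^ 2 := by
    intro i
    rw [← real_inner_self_eq_norm_sq, ← inner_dd]
    rw [Submodule.inner_starProjection_left_eq_right,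
      Submodule.starProjection_eq_self_iff.2 (hPmem _)]
  have t6 : ∀ i : Fin n, P (dd i 1) = 0 := by
    simp only [t5] at t4
    intro i
    have := (Finset.sum_eq_zero_iff_of_nonneg (fun i _ => sq_nonneg _)).1 t4 i (Finset.mem_univ _)
    exact norm_eq_zero.1 (pow_eq_zero_iff two_ne_zero |>.1 this)
  have t7 : ∀ v ∈ K, v = 0 := by
    intro v hv
    ext i g
    have e1 : P v = v := Submodule.starProjection_eq_self_iff.2 hv
    rw [← inner_dd, ← e1, ← Submodule.inner_starProjection_left_eq_right, ← hP, hdd, hPR, t6,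
      R_zero, inner_zero_left]
    rfl
  ext i j g
  have h1 : T E (dd j 1) = 0 := t7 _ ((hK _).2 (by rw [T_mul, hE]))
  have h2 : ((rho G (E i j) (dl 1)) g : ℝ) = (0 : ℝ) := by
    rw [← T_dd, h1]
    rfl
  rw [rho_dl_apply] at h2
  exact Int.cast_eq_zero.1 h2

theorem coeff_comm (a b : MonoidAlgebra ℤ G) : (a * b).coeff 1 = (b * a).coeff 1 := by
  classical
  rw [MonoidAlgebra.coeff_mul, MonoidAlgebra.coeff_mul]
  unfold Finsupp.sum
  rw [Finset.sum_comm]
  refine Finset.sum_congr rfl fun x _ => Finset.sum_congr rfl fun y _ => ?_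
  show (if y * x = 1 then a.coeff y * b.coeff x else 0) =
    if x * y = 1 then b.coeff x * a.coeff y else 0
  rw [mul_comm (a.coeff y)]
  congr 1
  exact propext mul_eq_one_comm

theorem stablyFinite (G : Type) [Group G] : IsStablyFiniteRing (MonoidAlgebra ℤ G) where
  isDedekindFiniteMonoid n := by
    refine ⟨fun {X Y} h => ?_⟩
    have hE : (1 - Y * X) * (1 - Y * X) = 1 - Y * X := by
      have : Y * X * (Y * X) = Y * X := by
        rw [mul_assoc, ← mul_assoc X, h, one_mul]
      rw [mul_sub, mul_one, sub_mul, one_mul, this, sub_self, sub_zero]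
    have ht : ∑ i, ((1 - Y * X) i i).coeff 1 = 0 := by
      have h1 : ∑ i, ((Y * X) i i).coeff 1 = ∑ i, ((X * Y) i i).coeff 1 := by
        simp only [Matrix.mul_apply, MonoidAlgebra.coeff_sum, Finsupp.finsetSum_apply]
        rw [Finset.sum_comm]
        refine Finset.sum_congr rfl fun i _ => Finset.sum_congr rfl fun j _ => ?_
        exact coeff_comm _ _
      have h2 : ∀ i, ((1 - Y * X) i i).coeff 1 =
          ((1 : Matrix (Fin n) (Fin n) (MonoidAlgebra ℤ G)) i i).coeff 1 -
            ((Y * X) i i).coeff 1 := fun i => rfl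
      simp only [h2]
      rw [Finset.sum_sub_distrib, h1, h, sub_self]
    exact (sub_eq_zero.1 (idem _ hE ht)).symm

end Pool.Agent.W196.CCN
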